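import Pool.Agent.Helper32.MF.Quad
import Pool.Agent.Helper32.MF.FromSeries

/-!
# Maximal spherical partial sums and maximal parabolic partial sums

Let `A_n` be the best constant in `∫ (sup_R |S_R f|)² ≤ A_n ∫ |f|²` on `ℝⁿ`, and `B_n` the best
constant in the maximal inequality for the partial sums of `n`-fold Fourier series over the sets
`m_n + m_1² + ⋯ + m_{n-1}² ≤ K`.  Then `A_{n-1} ≤ B_n ≤ A_n`.
-/

open MeasureTheory Set Filter Complex Matrix Metric SchwartzMap
open scoped ENNReal NNReal Topology Real InnerProductSpace FourierTransform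

namespace Pool.Agent.Results.MP_ee701d_an.ParabolicPartialSums

open Pool.Agent.Helper32.MF (P ch psum Good good_quad good_par good_cyl_of_par good_dot_of_cyl
  good_dot_of_ball ball_of_good_dot maxEst_of_good good_of_maxEst ser_of_good good_of_ser)

/-- `ℝⁿ` with the Euclidean norm -/
abbrev E (n : ℕ) : Type := EuclideanSpace ℝ (Fin n)

/-- the ball partial sum `S_R f (x) = ∫_{|ξ| ≤ R} f^(ξ) e^{2πi x·ξ} dξ` -/
noncomputable def ballSum {n : ℕ} (f : 𝓢(E n, ℂ)) (R : ℝ) (x : E n) : ℂ :=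
  ∫ ξ in {ξ : E n | ‖ξ‖ ≤ R}, 𝓕 (f : E n → ℂ) ξ * cexp (((2 * π * ⟪x, ξ⟫_ℝ : ℝ) : ℂ) * I)

/-- the estimate of the problem in dimension `n`, with the constant `C` for the squares:
`∫ (sup_{R>0} |S_R f|)² ≤ C ∫ |f|²` for every Schwartz function `f` -/
def BallEstimate (n : ℕ) (C : ℝ≥0) : Prop :=
  ∀ f : 𝓢(E n, ℂ), ∫⁻ x, (⨆ R : {R : ℝ // 0 < R}, ‖ballSum f R x‖ₑ) ^ 2 ≤
    C * ∫⁻ x, ‖f x‖ₑ ^ 2

/-- the partial Fourier integral over the set `{ξ : φ ξ ≤ t}` -/
noncomputable def partInt {n : ℕ} (φ : (Fin n → ℝ) → ℝ) (f : 𝓢(E n, ℂ)) (t : ℝ) (x : E n) : ℂ :=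
  ∫ ξ in {ξ : E n | φ (fun i => ξ i) ≤ t},
    𝓕 (f : E n → ℂ) ξ * cexp (((2 * π * ⟪x, ξ⟫_ℝ : ℝ) : ℂ) * I)

/-- the maximal estimate for the Fourier integrals over the sets `{φ ≤ t}`, `t ∈ ℝ` -/
def IntegralEstimate {n : ℕ} (φ : (Fin n → ℝ) → ℝ) (C : ℝ≥0) : Prop :=
  ∀ f : 𝓢(E n, ℂ), ∫⁻ x, (⨆ t : ℝ, ‖partInt φ f t x‖ₑ) ^ 2 ≤ C * ∫⁻ x, ‖f x‖ₑ ^ 2

/-- the partial sum over the frequencies `m` with `φ m ≤ t` of the trigonometric polynomial
`∑_{m ∈ s} c_m e^{2πi m·x}` in `n` variables -/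
noncomputable def partSer {n : ℕ} (φ : (Fin n → ℝ) → ℝ) (s : Finset (Fin n → ℤ))
    (c : (Fin n → ℤ) → ℂ) (t : ℝ) (x : Fin n → ℝ) : ℂ :=
  ∑ m ∈ s with φ (fun i => (m i : ℝ)) ≤ t,
    c m * cexp (((2 * π * ∑ i, m i * x i : ℝ) : ℂ) * I)

/-- the maximal estimate for the partial sums over the sets `{φ ≤ t}`, `t ∈ ℝ`, of `n`-fold
Fourier series, on the unit cube, uniformly for all trigonometric polynomials -/
def SeriesEstimate {n : ℕ} (φ : (Fin n → ℝ) → ℝ) (C : ℝ≥0) : Prop :=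
  ∀ (s : Finset (Fin n → ℤ)) (c : (Fin n → ℤ) → ℂ),
    ∫⁻ x in Set.Icc (0 : Fin n → ℝ) 1, (⨆ t : ℝ, ‖partSer φ s c t x‖ₑ) ^ 2 ≤
      C * ∑ m ∈ s, ‖c m‖ₑ ^ 2

/-- the quadratic phase `|T ζ|² + v·ζ` -/
def quadratic {n : ℕ} (T : Matrix (Fin n) (Fin n) ℝ) (v : Fin n → ℝ) (ζ : Fin n → ℝ) : ℝ :=
  ∑ i, (T *ᵥ ζ) i ^ 2 + ∑ i, v i * ζ i

/-- the parabolic phase `ζ_{d+1} + ζ_1² + ⋯ + ζ_d²` -/
def parabolic (d : ℕ) (ζ : Fin (d + 1) → ℝ) : ℝ :=
  ζ (Fin.last d) + ∑ i : Fin d, ζ i.castSucc ^ 2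

/-- the partial sum of order `K` of `∑_m c_m e^{2πi (m·x - (m_1² + ⋯ + m_d²) x_{d+1})}`, in which
the `k`-th coefficient in the variable `x_{d+1}` is moved by the Schroedinger flow at the time
`x_{d+1}` -/
noncomputable def twistedSum {d : ℕ} (s : Finset (Fin (d + 1) → ℤ)) (c : (Fin (d + 1) → ℤ) → ℂ)
    (K : ℤ) (x : Fin (d + 1) → ℝ) : ℂ :=
  ∑ m ∈ s with m (Fin.last d) ≤ K, c m * cexp (((2 * π * (∑ i, m i * x i -
    (∑ i : Fin d, (m i.castSucc : ℝ) ^ 2) * x (Fin.last d)) : ℝ) : ℂ) * I)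

/-- Carleson's inequality twisted by the periodic Schroedinger flow in `d` variables -/
def TwistedEstimate (d : ℕ) (C : ℝ≥0) : Prop :=
  ∀ (s : Finset (Fin (d + 1) → ℤ)) (c : (Fin (d + 1) → ℤ) → ℂ),
    ∫⁻ x in Set.Icc (0 : Fin (d + 1) → ℝ) 1, (⨆ K : ℤ, ‖twistedSum s c K x‖ₑ) ^ 2 ≤
      C * ∑ m ∈ s, ‖c m‖ₑ ^ 2

/-! ### Translation to the helper notions -/

lemma ball_iff (n : ℕ) (C : ℝ≥0) :
    BallEstimate n C ↔ Pool.Agent.Helper32.MF.BallEst n (C : ℝ≥0∞) := Iff.rfl

lemma int_iff {n : ℕ} {φ : (Fin n → ℝ) → ℝ} (hφ : Measurable φ) (C : ℝ≥0) :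
    IntegralEstimate φ C ↔ Good φ (C : ℝ≥0∞) := by
  have hm : Measurable fun ξ : E n => φ (fun i => ξ i) :=
    hφ.comp (MeasurableEquiv.toLp 2 (Fin n → ℝ)).symm.measurable
  constructor
  · intro h
    exact good_of_maxEst (φ := fun ξ : E n => φ (fun i => ξ i)) hm ENNReal.coe_ne_top h
  · intro h
    exact maxEst_of_good (φ := fun ξ : E n => φ (fun i => ξ i)) h

lemma ser_iff {n : ℕ} (φ : (Fin n → ℝ) → ℝ) (C : ℝ≥0) :
    SeriesEstimate φ C ↔ Pool.Agent.Helper32.MF.Ser φ (C : ℝ≥0∞) := by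
  have hcell : (Pool.Agent.Helper32.MF.cell (0 : Fin n → ℤ)) =ᵐ[volume]
      Set.Icc (0 : Fin n → ℝ) 1 := by
    rw [Pool.Agent.Helper32.MF.cell_eq]
    have := Measure.univ_pi_Ico_ae_eq_Icc (μ := fun _ : Fin n => (volume : Measure ℝ))
      (f := (0 : Fin n → ℝ)) (g := (1 : Fin n → ℝ))
    simpa [← volume_pi] using this
  have hsum : ∀ s c t x, partSer φ s c t x = Pool.Agent.Helper32.MF.ssum φ s c t x := by
    intro s c t x
    unfold partSer Pool.Agent.Helper32.MF.ssum
    refine Finset.sum_congr rfl fun m _ => ?_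
    rw [ch]
    congr 5
    simp [dotProduct, Pool.Agent.Helper32.MF.rv, mul_comm]
  unfold SeriesEstimate Pool.Agent.Helper32.MF.Ser
  simp_rw [hsum]
  refine forall_congr' fun s => forall_congr' fun c => ?_
  rw [setLIntegral_congr hcell]

lemma quadratic_eq {n : ℕ} (T : Matrix (Fin n) (Fin n) ℝ) (v : Fin n → ℝ) :
    quadratic T v = Pool.Agent.Helper32.MF.quad T v := by
  ext ζ
  simp [quadratic, Pool.Agent.Helper32.MF.quad, dotProduct, pow_two]

lemma continuous_quadratic {n : ℕ} (T : Matrix (Fin n) (Fin n) ℝ) (v : Fin n → ℝ) :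
    Continuous (quadratic T v) := by
  rw [quadratic_eq]
  exact Pool.Agent.Helper32.MF.continuous_quad T v

lemma parabolic_eq (d : ℕ) : parabolic d = Pool.Agent.Helper32.MF.par := rfl

lemma continuous_parabolic (d : ℕ) : Continuous (parabolic d) :=
  Pool.Agent.Helper32.MF.continuous_par

/-- the parabolic estimates for integrals and for series -/
lemma par_iff (d : ℕ) (C : ℝ≥0) :
    IntegralEstimate (parabolic d) C ↔ SeriesEstimate (parabolic d) C := by
  rw [int_iff (continuous_parabolic d).measurable, ser_iff]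
  refine ⟨fun h => ser_of_good (continuous_parabolic d) h, fun h => ?_⟩
  set ε : ℕ → ℝ := fun j => 1 / ((j : ℝ) + 1) with hε
  have hε0 : ∀ j, 0 < ε j := fun j => by positivity
  have hε1 : ∀ j, ε j ≤ 1 := fun j => by
    rw [hε]
    simp only
    rw [div_le_one (by positivity)]
    linarith [(Nat.cast_nonneg j : (0:ℝ) ≤ j)]
  have hεt : Tendsto ε atTop (𝓝 0) := tendsto_one_div_add_atTop_nhds_zero_nat
  refine good_of_ser (continuous_parabolic d) ENNReal.coe_ne_top h
    (fun j => Fin.snoc (fun _ : Fin d => ε j) (ε j ^ 2) : ℕ → Fin (d + 1) → ℝ) ?_ ?_ ?_ ?_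
  · intro j i
    refine Fin.lastCases ?_ (fun i => ?_) i
    · simpa using pow_pos (hε0 j) 2
    · simpa using hε0 j
  · intro j i
    refine Fin.lastCases ?_ (fun i => ?_) i
    · simp only [Fin.snoc_last]
      exact pow_le_one₀ (hε0 j).le (hε1 j)
    · simpa using hε1 j
  · intro i
    refine Fin.lastCases ?_ (fun i => ?_) i
    · simp only [Fin.snoc_last]
      have := hεt.pow 2
      simpa using this
    · simpa using hεt
  · intro j t
    refine ⟨t / ε j ^ 2, fun m => ?_⟩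
    rw [le_div_iff₀ (pow_pos (hε0 j) 2)]
    have : parabolic d (Pool.Agent.Helper32.MF.gr (Fin.snoc (fun _ : Fin d => ε j) (ε j ^ 2)) m) =
        parabolic d (Pool.Agent.Helper32.MF.rv m) * ε j ^ 2 := by
      simp only [parabolic, Pool.Agent.Helper32.MF.gr, Pool.Agent.Helper32.MF.rv, Fin.snoc_last,
        Fin.snoc_castSucc, add_mul, Finset.sum_mul]
      congr 1
      · ring
      · exact Finset.sum_congr rfl fun i _ => by ring
    rw [this]

/-- `m_1² + ⋯ + m_d²` -/
def sq {d : ℕ} (m : Fin (d + 1) → ℤ) : ℤ := ∑ i : Fin d, m i.castSucc ^ 2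

/-- the shear of the frequencies -/
def shear (d : ℕ) : (Fin (d + 1) → ℤ) ≃ (Fin (d + 1) → ℤ) where
  toFun m := Fin.snoc (fun i : Fin d => m i.castSucc) (m (Fin.last d) - sq m)
  invFun m := Fin.snoc (fun i : Fin d => m i.castSucc) (m (Fin.last d) + sq m)
  left_inv m := by
    ext i
    refine Fin.lastCases ?_ (fun i => ?_) i
    · simp [sq]
    · simp
  right_inv m := by
    ext i
    refine Fin.lastCases ?_ (fun i => ?_) i
    · simp [sq]
    · simp

lemma shear_last {d : ℕ} (m : Fin (d + 1) → ℤ) :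
    shear d m (Fin.last d) = m (Fin.last d) - sq m := by
  simp [shear]

lemma shear_castSucc {d : ℕ} (m : Fin (d + 1) → ℤ) (i : Fin d) :
    shear d m i.castSucc = m i.castSucc := by
  simp [shear]

lemma sq_shear {d : ℕ} (m : Fin (d + 1) → ℤ) : sq (shear d m) = sq m := by
  simp only [sq, shear_castSucc]

/-- the parabolic partial sum with an integer level -/
noncomputable def zsum {d : ℕ} (s : Finset (Fin (d + 1) → ℤ)) (c : (Fin (d + 1) → ℤ) → ℂ)
    (K : ℤ) (x : Fin (d + 1) → ℝ) : ℂ :=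
  ∑ m ∈ s with m (Fin.last d) + sq m ≤ K, c m * cexp (((2 * π * ∑ i, m i * x i : ℝ) : ℂ) * I)

lemma parabolic_cast {d : ℕ} (m : Fin (d + 1) → ℤ) :
    parabolic d (fun i => (m i : ℝ)) = ((m (Fin.last d) + sq m : ℤ) : ℝ) := by
  simp [parabolic, sq]

lemma iSup_zsum {d : ℕ} (s : Finset (Fin (d + 1) → ℤ)) (c : (Fin (d + 1) → ℤ) → ℂ)
    (x : Fin (d + 1) → ℝ) :
    ⨆ t : ℝ, ‖partSer (parabolic d) s c t x‖ₑ = ⨆ K : ℤ, ‖zsum s c K x‖ₑ := by
  have h1 : ∀ t : ℝ, partSer (parabolic d) s c t x = zsum s c ⌊t⌋ x := by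
    intro t
    unfold partSer zsum
    simp_rw [parabolic_cast, ← Int.le_floor]
  apply le_antisymm
  · refine iSup_le fun t => ?_
    rw [h1]
    exact le_iSup (fun K : ℤ => ‖zsum s c K x‖ₑ) ⌊t⌋
  · refine iSup_le fun K => ?_
    have := h1 (K : ℝ)
    rw [Int.floor_intCast] at this
    rw [← this]
    exact le_iSup (fun t : ℝ => ‖partSer (parabolic d) s c t x‖ₑ) (K : ℝ)

lemma twistedSum_eq {d : ℕ} (s : Finset (Fin (d + 1) → ℤ)) (c : (Fin (d + 1) → ℤ) → ℂ)
    (K : ℤ) (x : Fin (d + 1) → ℝ) :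
    twistedSum s c K x = zsum (s.map (shear d).toEmbedding) (c ∘ (shear d).symm) K x := by
  unfold twistedSum zsum
  rw [Finset.filter_map, Finset.sum_map]
  have h1 : s.filter ((fun m : Fin (d + 1) → ℤ => m (Fin.last d) + sq m ≤ K) ∘
      (shear d).toEmbedding) = s.filter fun m => m (Fin.last d) ≤ K := by
    refine Finset.filter_congr fun m _ => ?_
    simp [shear_last, sq_shear]
  rw [h1]
  refine Finset.sum_congr rfl fun m _ => ?_
  simp only [Function.comp_apply, Equiv.coe_toEmbedding, Equiv.symm_apply_apply]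
  congr 5
  rw [Fin.sum_univ_castSucc, Fin.sum_univ_castSucc]
  simp only [shear_castSucc, shear_last, sq]
  push_cast
  ring

lemma twisted_iff (d : ℕ) (C : ℝ≥0) :
    TwistedEstimate d C ↔ SeriesEstimate (parabolic d) C := by
  unfold TwistedEstimate SeriesEstimate
  simp_rw [iSup_zsum, twistedSum_eq]
  constructor
  · intro h s c
    have h1 := h (s.map (shear d).symm.toEmbedding) (c ∘ shear d)
    have e1 : (s.map (shear d).symm.toEmbedding).map (shear d).toEmbedding = s := by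
      rw [Finset.map_map]
      ext m
      simp
    have e2 : (c ∘ shear d) ∘ (shear d).symm = c := by
      ext m
      simp
    rw [e1, e2, Finset.sum_map] at h1
    simpa using h1
  · intro h s c
    have h1 := h (s.map (shear d).toEmbedding) (c ∘ (shear d).symm)
    rw [Finset.sum_map] at h1
    simpa using h1

/-- For every finite constant `C`:
(1) the estimate of the problem in dimension `n ≥ 1` with the constant `C` implies, with the same
constant, the maximal estimates for the Fourier integrals on `ℝⁿ` and for the `n`-fold Fourier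
series with respect to every phase `|T ζ|² + v·ζ`;
(2) for the parabolic phase in `d + 1` variables the estimate for series, the estimate for
integrals and the Carleson inequality twisted by the Schroedinger flow are equivalent with the same
constant, they follow from the estimate of the problem in dimension `d + 1`, and for `d ≥ 1` they
imply it in dimension `d`;
(3) hence the problem has a positive answer in all dimensions `n ≥ 2` if and only if the parabolic
series estimate holds in all dimensions `d + 1 ≥ 2`. -/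
theorem result :
    (∀ (n : ℕ) (C : ℝ≥0), 1 ≤ n → BallEstimate n C →
      ∀ (T : Matrix (Fin n) (Fin n) ℝ) (v : Fin n → ℝ),
        IntegralEstimate (quadratic T v) C ∧ SeriesEstimate (quadratic T v) C) ∧
    (∀ (d : ℕ) (C : ℝ≥0),
      (BallEstimate (d + 1) C → SeriesEstimate (parabolic d) C) ∧
      (1 ≤ d → SeriesEstimate (parabolic d) C → BallEstimate d C) ∧
      (SeriesEstimate (parabolic d) C ↔ IntegralEstimate (parabolic d) C) ∧
      (SeriesEstimate (parabolic d) C ↔ TwistedEstimate d C)) ∧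
    ((∀ n : ℕ, 2 ≤ n → ∃ C : ℝ≥0, BallEstimate n C) ↔
      ∀ d : ℕ, 1 ≤ d → ∃ C : ℝ≥0, SeriesEstimate (parabolic d) C) := by
  have hA : ∀ (d : ℕ) (C : ℝ≥0), BallEstimate (d + 1) C → SeriesEstimate (parabolic d) C := by
    intro d C h
    rw [← par_iff, int_iff (continuous_parabolic d).measurable]
    exact good_par (good_dot_of_ball (by omega) ENNReal.coe_ne_top h)
  have hB : ∀ (d : ℕ) (C : ℝ≥0), 1 ≤ d → SeriesEstimate (parabolic d) C → BallEstimate d C := by
    intro d C hd h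
    rw [← par_iff, int_iff (continuous_parabolic d).measurable] at h
    exact ball_of_good_dot hd (good_dot_of_cyl (good_cyl_of_par h))
  refine ⟨?_, ?_, ?_⟩
  · intro n C hn h T v
    have h1 : Good (quadratic T v) (C : ℝ≥0∞) := by
      rw [quadratic_eq]
      exact good_quad (good_dot_of_ball hn ENNReal.coe_ne_top h) T v
    exact ⟨(int_iff (continuous_quadratic T v).measurable C).2 h1,
      (ser_iff _ C).2 (ser_of_good (continuous_quadratic T v) h1)⟩
  · intro d C
    exact ⟨hA d C, hB d C, (par_iff d C).symm, (twisted_iff d C).symm⟩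
  · constructor
    · intro h d hd
      obtain ⟨C, hC⟩ := h (d + 1) (by omega)
      exact ⟨C, hA d C hC⟩
    · intro h n hn
      obtain ⟨C, hC⟩ := h n (by omega)
      exact ⟨C, hB n C (by omega) hC⟩

end Pool.Agent.Results.MP_ee701d_an.ParabolicPartialSums
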