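import Pool.Agent.Helper32.KS.Main
import Pool.Agent.Helper32.KS.Fin

/-!
# Almost everywhere convergence of disc partial sums in the plane with one logarithm

For `f ∈ L²(ℝ²)` let `S_R f (x) = ∫_{|ξ| ≤ R} f̂(ξ) e^{2πi x·ξ} dξ`.  If
`∫ |f̂(ξ)|² log(2+|ξ|) (log(2+log(2+|ξ|)))² dξ < ∞`, then `S_R f (x) → f(x)` for almost every `x`,
as `R → ∞` through the real numbers.  In particular this holds when
`∫ |f̂(ξ)|² (log(2+|ξ|))^{1+ε} dξ < ∞` for some `ε > 0`.  The Rademacher-Menshov argument needs the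
weight `(log(2+|ξ|))²`.
-/

set_option autoImplicit false

namespace Pool.Agent.Results.MP_ee701d_an.PlaneConvergenceLog

open MeasureTheory Filter Topology FourierTransform
open scoped ENNReal RealInnerProductSpace Real

variable {X : Type*} [NormedAddCommGroup X] [InnerProductSpace ℝ X] [FiniteDimensional ℝ X]
  [MeasurableSpace X] [BorelSpace X]

/-- `L²(X)`, complex valued functions, `X` a Euclidean space -/
abbrev L2 (X : Type*) [NormedAddCommGroup X] [InnerProductSpace ℝ X] [FiniteDimensional ℝ X]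
    [MeasurableSpace X] [BorelSpace X] : Type _ := Lp (α := X) ℂ 2 volume

/-- the Fourier (Plancherel) transform `f̂` of `f ∈ L²(X)`, as a function -/
noncomputable def hat (f : L2 X) : X → ℂ := (𝓕 f : Lp (α := X) ℂ 2 volume)

/-- the partial sum `S_R f (x) = ∫_{|ξ| ≤ R} f̂(ξ) e^{2πi x·ξ} dξ` of `f ∈ L²(X)` -/
noncomputable def partialSum (f : L2 X) (R : ℝ) (x : X) : ℂ :=
  ∫ ξ in Metric.closedBall (0 : X) R, hat f ξ * Complex.exp (2 * π * Complex.I * ⟪x, ξ⟫)

/-- `∫ |f̂(ξ)|² log(2+|ξ|) (log(2+log(2+|ξ|)))² dξ` -/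
noncomputable def logEnergy (f : L2 X) : ℝ≥0∞ :=
  ∫⁻ ξ, ‖hat f ξ‖ₑ ^ 2 *
    ENNReal.ofReal (Real.log (2 + ‖ξ‖) * (Real.log (2 + Real.log (2 + ‖ξ‖))) ^ 2)

/-- `S_R f (x) → f (x)` for almost every `x`, as `R → ∞` through the real numbers -/
def Converges (f : L2 X) : Prop :=
  ∀ᵐ x : X, Tendsto (fun R : ℝ => partialSum f R x) atTop (𝓝 (f x))

/-- **Theorem.**  If `f ∈ L²(ℝ²)` and `∫ |f̂(ξ)|² log(2+|ξ|) (log(2+log(2+|ξ|)))² dξ < ∞` then
`S_R f → f` almost everywhere. -/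
theorem result (f : L2 (EuclideanSpace ℝ (Fin 2))) (hf : logEnergy f < ⊤) : Converges f :=
  Helper32.KS.fin_B Helper32.KS.bd_true f hf

end Pool.Agent.Results.MP_ee701d_an.PlaneConvergenceLog
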