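import Pool.Agent.Helper32.KS.Main
import Pool.Agent.Helper32.KS.Fin

/-!
# Maximal disc partial sums in the plane: the local inequality with one logarithm

For a Schwartz function `f` on the plane let `S_R f (x) = ∫_{|ξ| ≤ R} f̂(ξ) e^{2πi x·ξ} dξ`.  There is
an absolute constant `C` such that for every `N ≥ 2`, every Schwartz `f` and every disc `B` of radius
one,

`∫_B (sup_{0 < R ≤ N} |S_R f|)² ≤ C · log N · (log (2 + log N))² · ∫ |f|²`.

This is the analogue for discs, up to a power of `log log N`, of the inequality of Kolmogorov, Seliverstov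
and Plessner for the partial sums of Fourier series in one variable; the Rademacher-Menshov argument gives
`(log N)²`.
-/

set_option autoImplicit false

namespace Pool.Agent.Results.MP_ee701d_an.PlaneMaximalLog

open MeasureTheory Filter Topology FourierTransform SchwartzMap
open scoped ENNReal RealInnerProductSpace Real

/-- the Euclidean plane -/
abbrev Plane : Type := EuclideanSpace ℝ (Fin 2)

/-- the disc partial sum `S_R f (x) = ∫_{|ξ| ≤ R} f̂(ξ) e^{2πi x·ξ} dξ` of a Schwartz function -/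
noncomputable def ballSum (f : 𝓢(Plane, ℂ)) (R : ℝ) (x : Plane) : ℂ :=
  ∫ ξ in Metric.closedBall (0 : Plane) R,
    𝓕 (f : Plane → ℂ) ξ * Complex.exp (2 * π * Complex.I * ⟪x, ξ⟫)

/-- the maximal function `sup_{0 < R ≤ N} |S_R f (x)|` -/
noncomputable def maxSum (N : ℝ) (f : 𝓢(Plane, ℂ)) (x : Plane) : ℝ≥0∞ :=
  ⨆ R : {R : ℝ // 0 < R ∧ R ≤ N}, ‖ballSum f R x‖ₑ

/-- **Theorem.**  For all `N ≥ 2`, Schwartz functions `f` and `z ∈ ℝ²`:
`∫_{|x - z| ≤ 1} (sup_{0 < R ≤ N} |S_R f (x)|)² dx ≤ C log N (log (2 + log N))² ∫ |f|²`. -/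
theorem result : ∃ C : ℝ, ∀ (N : ℝ) (f : 𝓢(Plane, ℂ)) (z : Plane), 2 ≤ N →
    ∫⁻ x in Metric.closedBall z 1, maxSum N f x ^ 2
      ≤ ENNReal.ofReal (C * Real.log N * (Real.log (2 + Real.log N)) ^ 2) *
        ∫⁻ x, ‖f x‖ₑ ^ 2 := by
  obtain ⟨C, -, h⟩ := Helper32.KS.fin_A Helper32.KS.bd_true
  refine ⟨C, fun N f z hN => ?_⟩
  have hc : Continuous (𝓕 (f : Plane → ℂ)) := by
    rw [← SchwartzMap.fourier_coe]
    exact (𝓕 f).continuous
  have hL : MemLp (𝓕 (f : Plane → ℂ)) 2 volume := by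
    rw [← SchwartzMap.fourier_coe]
    exact (𝓕 f).memLp 2 volume
  have h1 := h N hN (𝓕 (f : Plane → ℂ)) hc.measurable hL z
  have h2 : ∫⁻ ξ, ‖𝓕 (f : Plane → ℂ) ξ‖ₑ ^ 2 = ∫⁻ x, ‖f x‖ₑ ^ 2 := by
    have key : ∀ G : 𝓢(Plane, ℂ), ∫⁻ ξ, ‖G ξ‖ₑ ^ 2 = ENNReal.ofReal (∫ ξ, ‖G ξ‖ ^ 2) := by
      intro G
      rw [ofReal_integral_eq_lintegral_ofReal]
      · congr 1
        funext ξ
        rw [← ofReal_norm, ENNReal.ofReal_pow (norm_nonneg _)]
      · exact (memLp_two_iff_integrable_sq_norm G.continuous.aestronglyMeasurable).1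
          (G.memLp 2 volume)
      · exact Eventually.of_forall fun x => by positivity
    have h3 := key (𝓕 f)
    rw [SchwartzMap.fourier_coe] at h3
    rw [h3, key f]
    congr 1
    have := SchwartzMap.integral_norm_sq_fourier f
    rw [SchwartzMap.fourier_coe] at this
    exact this
  rw [← h2]
  refine le_trans (le_of_eq ?_) h1
  congr 1
  funext x
  congr 1
  unfold maxSum
  rw [iSup_subtype]
  rfl

end Pool.Agent.Results.MP_ee701d_an.PlaneMaximalLog
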