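import Pool.Agent.Helper32.MF.Expand

/-!
# Blow-up of maximal partial sum operators at curved points

Every maximal inequality for the partial Fourier integrals over the level sets `{φ ≤ t}` of a
phase with a curved point implies maximal parabolic and maximal spherical inequalities.
-/

open MeasureTheory Set Filter Complex Matrix Metric SchwartzMap Module Asymptotics
open scoped ENNReal NNReal Topology Real InnerProductSpace FourierTransform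

namespace Pool.Agent.Results.MP_ee701d_an.TangentPhases

open Pool.Agent.Helper32.MF (P ch psum Good GoodOn good_dot_of_ball ball_of_good_dot
  maxEst_of_good good_of_maxEst ser_of_good)

/-- `ℝⁿ` with the Euclidean norm -/
abbrev E (n : ℕ) : Type := EuclideanSpace ℝ (Fin n)

/-- the ball partial sum `S_R f (x) = ∫_{|ξ| ≤ R} f^(ξ) e^{2πi x·ξ} dξ` -/
noncomputable def ballSum {n : ℕ} (f : 𝓢(E n, ℂ)) (R : ℝ) (x : E n) : ℂ :=
  ∫ ξ in {ξ : E n | ‖ξ‖ ≤ R}, 𝓕 (f : E n → ℂ) ξ * cexp (((2 * π * ⟪x, ξ⟫_ℝ : ℝ) : ℂ) * I)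

/-- the estimate of the problem in dimension `n`, with the constant `C` for the squares:
`∫ (sup_{R>0} |S_R f|)² ≤ C ∫ |f|²` for every Schwartz function `f` -/
def BallEstimate (n : ℕ) (C : ℝ≥0) : Prop :=
  ∀ f : 𝓢(E n, ℂ), ∫⁻ x, (⨆ R : {R : ℝ // 0 < R}, ‖ballSum f R x‖ₑ) ^ 2 ≤
    C * ∫⁻ x, ‖f x‖ₑ ^ 2

/-- the partial Fourier integral over the set `{ξ : φ ξ ≤ t}` -/
noncomputable def partInt {n : ℕ} (φ : (Fin n → ℝ) → ℝ) (f : 𝓢(E n, ℂ)) (t : ℝ) (x : E n) : ℂ :=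
  ∫ ξ in {ξ : E n | φ (fun i => ξ i) ≤ t},
    𝓕 (f : E n → ℂ) ξ * cexp (((2 * π * ⟪x, ξ⟫_ℝ : ℝ) : ℂ) * I)

/-- the maximal estimate for the Fourier integrals over the sets `{φ ≤ t}`, `t ∈ ℝ` -/
def IntegralEstimate {n : ℕ} (φ : (Fin n → ℝ) → ℝ) (C : ℝ≥0) : Prop :=
  ∀ f : 𝓢(E n, ℂ), ∫⁻ x, (⨆ t : ℝ, ‖partInt φ f t x‖ₑ) ^ 2 ≤ C * ∫⁻ x, ‖f x‖ₑ ^ 2

/-- the partial sum over the frequencies `m` with `φ m ≤ t` of the trigonometric polynomial
`∑_{m ∈ s} c_m e^{2πi m·x}` in `n` variables -/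
noncomputable def partSer {n : ℕ} (φ : (Fin n → ℝ) → ℝ) (s : Finset (Fin n → ℤ))
    (c : (Fin n → ℤ) → ℂ) (t : ℝ) (x : Fin n → ℝ) : ℂ :=
  ∑ m ∈ s with φ (fun i => (m i : ℝ)) ≤ t,
    c m * cexp (((2 * π * ∑ i, m i * x i : ℝ) : ℂ) * I)

/-- the maximal estimate for the partial sums over the sets `{φ ≤ t}`, `t ∈ ℝ`, of `n`-fold
Fourier series, on the unit cube, uniformly for all trigonometric polynomials -/
def SeriesEstimate {n : ℕ} (φ : (Fin n → ℝ) → ℝ) (C : ℝ≥0) : Prop :=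
  ∀ (s : Finset (Fin n → ℤ)) (c : (Fin n → ℤ) → ℂ),
    ∫⁻ x in Set.Icc (0 : Fin n → ℝ) 1, (⨆ t : ℝ, ‖partSer φ s c t x‖ₑ) ^ 2 ≤
      C * ∑ m ∈ s, ‖c m‖ₑ ^ 2

/-- the fundamental cube `[-1/2, 1/2]ⁿ` of the frequencies of functions on `ℤⁿ` -/
def halfCube (n : ℕ) : Set (Fin n → ℝ) := {ξ | ∀ i, |ξ i| ≤ 1 / 2}

/-- the value at `k ∈ ℤⁿ` of the spectral projection `∫_{ξ ∈ Q, φ ξ ≤ t} F(ξ) e^{2πi k·ξ} dξ`,
`Q = [-1/2, 1/2]ⁿ`, of the element of `ℓ²(ℤⁿ)` with the Fourier transform `F` -/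
noncomputable def partLat {n : ℕ} (φ : (Fin n → ℝ) → ℝ) (F : (Fin n → ℝ) → ℂ) (t : ℝ)
    (k : Fin n → ℤ) : ℂ :=
  ∫ ξ in {ξ | ξ ∈ halfCube n ∧ φ ξ ≤ t}, F ξ * cexp (((2 * π * ∑ i, k i * ξ i : ℝ) : ℂ) * I)

/-- the maximal estimate for the spectral projections on `ℓ²(ℤⁿ)` -/
def LatticeEstimate {n : ℕ} (φ : (Fin n → ℝ) → ℝ) (C : ℝ≥0) : Prop :=
  ∀ F : (Fin n → ℝ) → ℂ, MemLp F 2 (volume.restrict (halfCube n)) →
    ∑' k : Fin n → ℤ, (⨆ t : ℝ, ‖partLat φ F t k‖ₑ) ^ 2 ≤ C * ∫⁻ ξ in halfCube n, ‖F ξ‖ₑ ^ 2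

/-- `φ (ξ₀ + h) = φ ξ₀ + a·h + h·Hh + o(|h|²)` -/
def SecondOrder {n : ℕ} (φ : (Fin n → ℝ) → ℝ) (ξ₀ a : Fin n → ℝ)
    (H : Matrix (Fin n) (Fin n) ℝ) : Prop :=
  (fun h : Fin n → ℝ => φ (ξ₀ + h) - φ ξ₀ - a ⬝ᵥ h - h ⬝ᵥ (H *ᵥ h)) =o[𝓝 0] fun h => ‖h‖ ^ 2

/-- the parabolic phase `ζ_{d+1} + ζ_1² + ⋯ + ζ_d²` -/
def parabolic (d : ℕ) (ζ : Fin (d + 1) → ℝ) : ℝ :=
  ζ (Fin.last d) + ∑ i : Fin d, ζ i.castSucc ^ 2

/-- the symbol of the discrete Laplacian -/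
noncomputable def laplacian (n : ℕ) (ξ : Fin n → ℝ) : ℝ := ∑ i, (1 - Real.cos (2 * π * ξ i))

/-- the phase `∏ max(1, |ζ_i|)` of the hyperbolic crosses -/
noncomputable def cross (n : ℕ) (ζ : Fin n → ℝ) : ℝ := ∏ i, max 1 |ζ i|

/-! ### Translation to the helper notions -/

lemma int_iff {n : ℕ} {φ : (Fin n → ℝ) → ℝ} (hφ : Measurable φ) (C : ℝ≥0) :
    IntegralEstimate φ C ↔ Good φ (C : ℝ≥0∞) := by
  have hm : Measurable fun ξ : E n => φ (fun i => ξ i) :=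
    hφ.comp (MeasurableEquiv.toLp 2 (Fin n → ℝ)).symm.measurable
  constructor
  · intro h
    exact good_of_maxEst (φ := fun ξ : E n => φ (fun i => ξ i)) hm ENNReal.coe_ne_top h
  · intro h
    exact maxEst_of_good (φ := fun ξ : E n => φ (fun i => ξ i)) h

lemma ser_iff {n : ℕ} (φ : (Fin n → ℝ) → ℝ) (C : ℝ≥0) :
    SeriesEstimate φ C ↔ Pool.Agent.Helper32.MF.Ser φ (C : ℝ≥0∞) := by
  have hcell : (Pool.Agent.Helper32.MF.cell (0 : Fin n → ℤ)) =ᵐ[volume]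
      Set.Icc (0 : Fin n → ℝ) 1 := by
    rw [Pool.Agent.Helper32.MF.cell_eq]
    have := Measure.univ_pi_Ico_ae_eq_Icc (μ := fun _ : Fin n => (volume : Measure ℝ))
      (f := (0 : Fin n → ℝ)) (g := (1 : Fin n → ℝ))
    simpa [← volume_pi] using this
  have hsum : ∀ s c t x, partSer φ s c t x = Pool.Agent.Helper32.MF.ssum φ s c t x := by
    intro s c t x
    unfold partSer Pool.Agent.Helper32.MF.ssum
    refine Finset.sum_congr rfl fun m _ => ?_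
    rw [ch]
    congr 5
    simp [dotProduct, Pool.Agent.Helper32.MF.rv, mul_comm]
  unfold SeriesEstimate Pool.Agent.Helper32.MF.Ser
  simp_rw [hsum]
  refine forall_congr' fun s => forall_congr' fun c => ?_
  rw [setLIntegral_congr hcell]

lemma lat_iff {n : ℕ} (φ : (Fin n → ℝ) → ℝ) (C : ℝ≥0) :
    LatticeEstimate φ C ↔ Pool.Agent.Helper32.MF.Lat φ (C : ℝ≥0∞) := Iff.rfl

lemma ball_of_good {k : ℕ} {C : ℝ≥0} (hk : 1 ≤ k)
    (h : Good (fun ζ : P k => ζ ⬝ᵥ ζ) (C : ℝ≥0∞)) : BallEstimate k C :=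
  ball_of_good_dot hk h

lemma ser_of_good_par {k : ℕ} {C : ℝ≥0}
    (h : Good (Pool.Agent.Helper32.MF.par (d := k)) (C : ℝ≥0∞)) :
    SeriesEstimate (parabolic k) C :=
  (ser_iff (parabolic k) C).2 (ser_of_good Pool.Agent.Helper32.MF.continuous_par h)

/-- the blow-up for the two kinds of estimates -/
lemma blowUp {n k : ℕ} {φ : (Fin n → ℝ) → ℝ} {C : ℝ≥0} {ξ₀ a : Fin n → ℝ}
    {H : Matrix (Fin n) (Fin n) ℝ} {V : Submodule ℝ (Fin n → ℝ)} {U : Set (Fin n → ℝ)}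
    (hφ : Measurable φ) (hE : SecondOrder φ ξ₀ a H) (hk : finrank ℝ V = k)
    (haV : ∀ h ∈ V, a ⬝ᵥ h = 0) (hU : U ∈ 𝓝 ξ₀) (hg : GoodOn φ U (C : ℝ≥0∞)) :
    ((∀ h ∈ V, h ≠ 0 → 0 < h ⬝ᵥ (H *ᵥ h)) →
      (1 ≤ k → BallEstimate k C) ∧ (a ≠ 0 → SeriesEstimate (parabolic k) C)) ∧
    ((∀ h ∈ V, h ≠ 0 → h ⬝ᵥ (H *ᵥ h) < 0) →
      (1 ≤ k → BallEstimate k (4 * C)) ∧ (a ≠ 0 → SeriesEstimate (parabolic k) (4 * C))) := by
  refine ⟨fun hH => ⟨fun hk1 => ?_, fun ha => ?_⟩, fun hH => ?_⟩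
  · exact ball_of_good hk1
      (Pool.Agent.Helper32.MF.good_dot_of_curved hφ hU hg hE hk haV hH)
  · exact ser_of_good_par
      (Pool.Agent.Helper32.MF.good_par_of_curved' hφ hU hg ha hE hk haV hH)
  · have hneg : GoodOn (fun ζ => -φ ζ) U ((4 * C : ℝ≥0) : ℝ≥0∞) := by
      have := Pool.Agent.Helper32.MF.goodOn_neg hφ hg
      rw [ENNReal.coe_mul]
      exact this
    have hform : ∀ h : Fin n → ℝ, h ⬝ᵥ ((-H) *ᵥ h) = -(h ⬝ᵥ (H *ᵥ h)) := by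
      intro h
      rw [neg_mulVec, dotProduct_neg]
    have hE' : (fun h : Fin n → ℝ => -φ (ξ₀ + h) - -φ ξ₀ - (-a) ⬝ᵥ h - h ⬝ᵥ ((-H) *ᵥ h))
        =o[𝓝 0] fun h => ‖h‖ ^ 2 := by
      refine (IsLittleO.neg_left hE).congr_left fun h => ?_
      rw [hform, neg_dotProduct]
      ring
    have haV' : ∀ h ∈ V, (-a) ⬝ᵥ h = 0 := by
      intro h hh
      rw [neg_dotProduct, haV h hh, neg_zero]
    have hH' : ∀ h ∈ V, h ≠ 0 → 0 < h ⬝ᵥ ((-H) *ᵥ h) := by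
      intro h hh h0
      rw [hform]
      exact neg_pos.2 (hH h hh h0)
    refine ⟨fun hk1 => ?_, fun ha => ?_⟩
    · exact ball_of_good hk1
        (Pool.Agent.Helper32.MF.good_dot_of_curved hφ.neg hU hneg hE' hk haV' hH')
    · exact ser_of_good_par
        (Pool.Agent.Helper32.MF.good_par_of_curved' hφ.neg hU hneg (neg_ne_zero.2 ha) hE' hk
          haV' hH')

lemma halfCube_mem_nhds {n : ℕ} {ξ₀ : Fin n → ℝ} (h : ∀ i, |ξ₀ i| < 1 / 2) :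
    halfCube n ∈ 𝓝 ξ₀ := by
  have h1 : ∀ i, ∀ᶠ ξ : Fin n → ℝ in 𝓝 ξ₀, |ξ i| < 1 / 2 := by
    intro i
    have hc : Continuous fun ξ : Fin n → ℝ => |ξ i| := by fun_prop
    exact (hc.tendsto ξ₀).eventually (gt_mem_nhds (h i))
  filter_upwards [eventually_all.2 h1] with ξ hξ i
  exact (hξ i).le

/-- (1) Let `φ(ξ₀+h) = φ(ξ₀) + a·h + h·Hh + o(|h|²)`, and let `V` be a `k`-dimensional subspace
of vectors orthogonal to `a`.  If the maximal estimate with the constant `C` holds for the Fourier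
integrals over `{φ ≤ t}`, or for the spectral projections `{φ ≤ t}` on `ℓ²(ℤⁿ)` (and `ξ₀` is in
the interior of the cube of the frequencies), and if `H` is positive on `V`, then the estimate of
the problem holds in dimension `k` (if `k ≥ 1`) and, if `a ≠ 0`, the parabolic estimate holds in
`k + 1` variables, both with the constant `C`; if `H` is negative on `V` the same is true with
`4 C`.
(2) Hence, if the parabolic estimate fails in two variables for every constant, then the maximal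
estimates for Fourier integrals can only hold for phases whose level sets are flat to the second
order at every noncritical point.
(3) The maximal estimate for the spectral projections of the discrete Laplacian on `ℤⁿ` implies
the estimate of the problem in dimension `n` with the same constant.
(4) The maximal estimate for the hyperbolic partial sums of `d + 1`-fold Fourier series implies
the parabolic estimate in `d + 1` variables, and the estimate of the problem in dimension `d` (if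
`d ≥ 1`), with the constant `4 C`. -/
theorem result :
    (∀ (n k : ℕ) (φ : (Fin n → ℝ) → ℝ) (C : ℝ≥0) (ξ₀ a : Fin n → ℝ)
      (H : Matrix (Fin n) (Fin n) ℝ) (V : Submodule ℝ (Fin n → ℝ)),
      Measurable φ → SecondOrder φ ξ₀ a H → finrank ℝ V = k → (∀ h ∈ V, a ⬝ᵥ h = 0) →
      (IntegralEstimate φ C ∨ ((∀ i, |ξ₀ i| < 1 / 2) ∧ LatticeEstimate φ C)) →
      ((∀ h ∈ V, h ≠ 0 → 0 < h ⬝ᵥ (H *ᵥ h)) →
        (1 ≤ k → BallEstimate k C) ∧ (a ≠ 0 → SeriesEstimate (parabolic k) C)) ∧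
      ((∀ h ∈ V, h ≠ 0 → h ⬝ᵥ (H *ᵥ h) < 0) →
        (1 ≤ k → BallEstimate k (4 * C)) ∧ (a ≠ 0 → SeriesEstimate (parabolic k) (4 * C)))) ∧
    ((¬ ∃ C : ℝ≥0, SeriesEstimate (parabolic 1) C) →
      ∀ (n : ℕ) (φ : (Fin n → ℝ) → ℝ) (ξ₀ a : Fin n → ℝ) (H : Matrix (Fin n) (Fin n) ℝ),
        Measurable φ → SecondOrder φ ξ₀ a H → a ≠ 0 → (∃ C : ℝ≥0, IntegralEstimate φ C) →
        ∀ h, a ⬝ᵥ h = 0 → h ⬝ᵥ (H *ᵥ h) = 0) ∧
    (∀ (n : ℕ) (C : ℝ≥0), 1 ≤ n → LatticeEstimate (laplacian n) C → BallEstimate n C) ∧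
    (∀ (d : ℕ) (C : ℝ≥0), SeriesEstimate (cross (d + 1)) C →
      SeriesEstimate (parabolic d) (4 * C) ∧ (1 ≤ d → BallEstimate d (4 * C))) := by
  have h1 : ∀ (n k : ℕ) (φ : (Fin n → ℝ) → ℝ) (C : ℝ≥0) (ξ₀ a : Fin n → ℝ)
      (H : Matrix (Fin n) (Fin n) ℝ) (V : Submodule ℝ (Fin n → ℝ)),
      Measurable φ → SecondOrder φ ξ₀ a H → finrank ℝ V = k → (∀ h ∈ V, a ⬝ᵥ h = 0) →
      (IntegralEstimate φ C ∨ ((∀ i, |ξ₀ i| < 1 / 2) ∧ LatticeEstimate φ C)) →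
      ((∀ h ∈ V, h ≠ 0 → 0 < h ⬝ᵥ (H *ᵥ h)) →
        (1 ≤ k → BallEstimate k C) ∧ (a ≠ 0 → SeriesEstimate (parabolic k) C)) ∧
      ((∀ h ∈ V, h ≠ 0 → h ⬝ᵥ (H *ᵥ h) < 0) →
        (1 ≤ k → BallEstimate k (4 * C)) ∧
          (a ≠ 0 → SeriesEstimate (parabolic k) (4 * C))) := by
    intro n k φ C ξ₀ a H V hφ hE hk haV hor
    rcases hor with h | ⟨h2, h⟩
    · have hg := (int_iff hφ C).1 h
      exact blowUp hφ hE hk haV univ_mem fun G hG1 hG2 _ => hg G hG1 hG2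
    · exact blowUp hφ hE hk haV (halfCube_mem_nhds h2)
        (Pool.Agent.Helper32.MF.goodOn_of_lat hφ ((lat_iff φ C).1 h))
  refine ⟨h1, ?_, ?_, ?_⟩
  · rintro hno n φ ξ₀ a H hφ hE ha ⟨C, hC⟩ h₀ hh₀
    by_contra hne
    have h00 : h₀ ≠ 0 := by
      rintro rfl
      exact hne (zero_dotProduct _)
    have hV : ∀ h ∈ Submodule.span ℝ {h₀}, a ⬝ᵥ h = 0 := by
      intro h hh
      obtain ⟨c, rfl⟩ := Submodule.mem_span_singleton.1 hh
      rw [dotProduct_smul, hh₀, smul_zero]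
    have hform : ∀ c : ℝ, (c • h₀) ⬝ᵥ (H *ᵥ (c • h₀)) = c ^ 2 * (h₀ ⬝ᵥ (H *ᵥ h₀)) := by
      intro c
      rw [mulVec_smul, smul_dotProduct, dotProduct_smul, smul_eq_mul, smul_eq_mul]
      ring
    obtain ⟨hp, hm⟩ := h1 n 1 φ C ξ₀ a H (Submodule.span ℝ {h₀}) hφ hE
      (finrank_span_singleton h00) hV (Or.inl hC)
    rcases lt_or_gt_of_ne hne with hs | hs
    · refine hno ⟨4 * C, (hm fun h hh h0 => ?_).2 ha⟩
      obtain ⟨c, rfl⟩ := Submodule.mem_span_singleton.1 hh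
      have hc : c ≠ 0 := fun hc => h0 (by rw [hc, zero_smul])
      rw [hform]
      exact mul_neg_of_pos_of_neg (by positivity) hs
    · refine hno ⟨C, (hp fun h hh h0 => ?_).2 ha⟩
      obtain ⟨c, rfl⟩ := Submodule.mem_span_singleton.1 hh
      have hc : c ≠ 0 := fun hc => h0 (by rw [hc, zero_smul])
      rw [hform]
      exact mul_pos (by positivity) hs
  · intro n C hn h
    exact ball_of_good hn (Pool.Agent.Helper32.MF.good_dot_of_lap h)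
  · intro d C h
    have h2 : Good (Pool.Agent.Helper32.MF.par (d := d)) ((4 * C : ℝ≥0) : ℝ≥0∞) := by
      have h3 := Pool.Agent.Helper32.MF.good_par_of_hyp
        (Pool.Agent.Helper32.MF.good_hyp_of_ser ENNReal.coe_ne_top ((ser_iff _ C).1 h))
      rw [ENNReal.coe_mul]
      exact h3
    exact ⟨ser_of_good_par h2, fun hd => ball_of_good hd
      (Pool.Agent.Helper32.MF.good_dot_of_cyl (Pool.Agent.Helper32.MF.good_cyl_of_par h2))⟩

end Pool.Agent.Results.MP_ee701d_an.TangentPhases
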